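import Pool.Agent.Helper534.L5.Final5

open Pool.Agent.Helper534.LS

namespace Pool.Agent.Results.MP_51c806_gt.FiveSphere

/-- Positive answer to Q1 for the five sphere (where all the homology groups `H_k(ΛS⁵; ℤ)` are free
of rank at most one, so no torsion is involved): there are a Riemannian metric `g` on `S⁵` (the
restriction of a smooth field of inner products on `ℂ³ = ℝ⁶`) and a class `X` in `H_4(ΛS⁵; ℤ)` with
`0 < cr (2 X) < cr X`. Here `Loop5` is the space of `H¹` loops on the unit sphere of `ℂ³`, `lenG g`
is the length for the metric `g`, `HH` is integral singular homology and `crit (lenG g)` is the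
infimum of the `a ≥ 0` such that the class comes from the homology of the space of the loops of
length at most `a`. -/
theorem result : ∃ g, IsMetric g ∧ ∃ X : HH Loop5 4,
    0 < crit (lenG g) (mult 2 X) ∧ crit (lenG g) (mult 2 X) < crit (lenG g) X := main5'

end Pool.Agent.Results.MP_51c806_gt.FiveSphere
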