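import Pool.Agent.Helper534.LS.Final

open Pool.Agent.Helper534.LS

namespace Pool.Agent.Results.MP_51c806_gt.MinimaxDrop

/-- Positive answer to Q1, for the round two sphere, degree `4` and `m = 2`: there is a class `X`
in `H_4(ΛS²; ℤ)` with `0 < cr (2 X) < cr X`. Here `Loop` is the space of `H¹` loops on the unit
sphere of Euclidean three space, with the `H¹` topology, `HH` is integral singular homology and
`crit length` is the infimum of the `a ≥ 0` such that the class comes from the homology of the space
of the loops of length at most `a`. -/
theorem result : ∃ X : HH Loop 4,
    0 < crit length (mult 2 X) ∧ crit length (mult 2 X) < crit length X := main'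

end Pool.Agent.Results.MP_51c806_gt.MinimaxDrop
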